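import Pool.Agent.H817R5.EP.Stubs

/-! Task SUMG: the sum over all common parts. -/

set_option autoImplicit false

open Finset

namespace Pool.Agent.H386R5.EP

open Pool.Agent.H817R5.EP

theorem sumg (htgs : St_TGS) (htgl : St_TGL) : St_SUMG := by
  intro a P z G H hP hG
  have hprime : ∀ g ∈ P.powerset, ∀ q ∈ g, q.Prime := fun g hg q hq =>
    (hP q (mem_powerset.1 hg hq)).1
  have hG' : (1 : ℝ) ≤ G := by exact_mod_cast hG
  have hH : (0 : ℝ) ≤ H := Nat.cast_nonneg H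
  have hz : (0 : ℝ) ≤ z := Nat.cast_nonneg z
  rw [← sum_filter_add_sum_filter_not P.powerset (fun g => ∏ q ∈ g, q ≤ G)]
  -- small products
  have h1 : ∑ g ∈ P.powerset.filter (fun g => ∏ q ∈ g, q ≤ G),
      |∑ r ∈ range H, ∑ s ∈ range H, (kap a g r s - den a g ^ 2)| ≤ G * (H * (G : ℝ) ^ 2) := by
    have hc : (P.powerset.filter (fun g => ∏ q ∈ g, q ≤ G)).card ≤ G := by
      have hinj : Set.InjOn (fun g : Finset ℕ => ∏ q ∈ g, q)
          (P.powerset.filter (fun g => ∏ q ∈ g, q ≤ G) : Set (Finset ℕ)) := by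
        intro g hg g' hg' hgg
        have h2 := (mem_filter.1 (mem_coe.1 hg)).1
        have h3 := (mem_filter.1 (mem_coe.1 hg')).1
        rw [← Nat.primeFactors_prod (hprime g h2), ← Nat.primeFactors_prod (hprime g' h3)]
        exact congrArg Nat.primeFactors hgg
      rw [← card_image_of_injOn hinj]
      have hsub : (P.powerset.filter (fun g => ∏ q ∈ g, q ≤ G)).image
          (fun g : Finset ℕ => ∏ q ∈ g, q) ⊆ Icc 1 G := by
        intro n hn
        obtain ⟨g, hg, rfl⟩ := mem_image.1 hn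
        obtain ⟨hg1, hg2⟩ := mem_filter.1 hg
        rw [mem_Icc]
        exact ⟨Nat.one_le_iff_ne_zero.2
          (prod_ne_zero_iff.2 fun q hq => (hprime g hg1 q hq).ne_zero), hg2⟩
      have := card_le_card hsub
      rwa [Nat.card_Icc, Nat.add_sub_cancel] at this
    have hb : ∀ g ∈ P.powerset.filter (fun g => ∏ q ∈ g, q ≤ G),
        |∑ r ∈ range H, ∑ s ∈ range H, (kap a g r s - den a g ^ 2)| ≤ H * (G : ℝ) ^ 2 := by
      intro g hg
      obtain ⟨hg1, hg2⟩ := mem_filter.1 hg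
      refine (htgs a P g z H hP (mem_powerset.1 hg1)).trans ?_
      apply mul_le_mul_of_nonneg_left _ hH
      have h4 : (∏ q ∈ g, (q : ℝ)) ≤ G := by
        rw [← Nat.cast_prod]
        exact_mod_cast hg2
      exact pow_le_pow_left₀ (prod_nonneg fun q _ => Nat.cast_nonneg q) h4 2
    refine (sum_le_sum hb).trans ?_
    rw [sum_const, nsmul_eq_mul]
    apply mul_le_mul_of_nonneg_right _ (by positivity)
    exact_mod_cast hc
  -- large products
  have hW : 0 ≤ (H : ℝ) * (3 * (H : ℝ) / G + 2 * z + (G : ℝ) ^ 2) := by positivity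
  have h2 : ∑ g ∈ P.powerset.filter (fun g => ¬ ∏ q ∈ g, q ≤ G),
      |∑ r ∈ range H, ∑ s ∈ range H, (kap a g r s - den a g ^ 2)| ≤
      (∏ q ∈ P, (1 + 4 / (q : ℝ))) * (H * (3 * (H : ℝ) / G + 2 * z + (G : ℝ) ^ 2)) := by
    have hb : ∀ g ∈ P.powerset.filter (fun g => ¬ ∏ q ∈ g, q ≤ G),
        |∑ r ∈ range H, ∑ s ∈ range H, (kap a g r s - den a g ^ 2)| ≤
        (∏ q ∈ g, 4 / (q : ℝ)) * (H * (3 * (H : ℝ) / G + 2 * z + (G : ℝ) ^ 2)) := by
      intro g hg
      obtain ⟨hg1, hg2⟩ := mem_filter.1 hg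
      exact htgl a P g z G H hP (mem_powerset.1 hg1) hG (not_le.1 hg2)
    refine (sum_le_sum hb).trans ?_
    rw [← sum_mul]
    apply mul_le_mul_of_nonneg_right _ hW
    rw [prod_one_add]
    apply sum_le_sum_of_subset_of_nonneg (filter_subset _ _)
    intro g _ _
    exact prod_nonneg fun q _ => by positivity
  have h3 : (1 : ℝ) ≤ ∏ q ∈ P, (1 + 4 / (q : ℝ)) := by
    have : ∏ q ∈ P, (1 : ℝ) ≤ ∏ q ∈ P, (1 + 4 / (q : ℝ)) := by
      apply prod_le_prod
      · intro q _; norm_num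
      · intro q _
        have : (0 : ℝ) ≤ 4 / (q : ℝ) := by positivity
        linarith
    rwa [prod_const_one] at this
  set Dd := ∏ q ∈ P, (1 + 4 / (q : ℝ)) with hDd
  have h5 : (G : ℝ) * (H * (G : ℝ) ^ 2) ≤ Dd * (H * (G : ℝ) ^ 3) := by
    have e : (G : ℝ) * (H * (G : ℝ) ^ 2) = 1 * (H * (G : ℝ) ^ 3) := by ring
    rw [e]
    exact mul_le_mul_of_nonneg_right h3 (by positivity)
  have h6 : (G : ℝ) ^ 2 ≤ (G : ℝ) ^ 3 := pow_le_pow_right₀ hG' (by norm_num)
  have h7 : Dd * (H * (3 * (H : ℝ) / G + 2 * z + (G : ℝ) ^ 2)) ≤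
      Dd * (H * (3 * (H : ℝ) / G + 2 * z + (G : ℝ) ^ 3)) := by
    apply mul_le_mul_of_nonneg_left _ (by linarith)
    apply mul_le_mul_of_nonneg_left _ hH
    linarith
  calc _ ≤ Dd * (H * (G : ℝ) ^ 3) + Dd * (H * (3 * (H : ℝ) / G + 2 * z + (G : ℝ) ^ 3)) :=
        add_le_add (h1.trans h5) (h2.trans h7)
    _ = _ := by ring

end Pool.Agent.H386R5.EP
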